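import Pool.Agent.W224.AB.Arith

/-!
# Long blocks of consecutive abundances
-/

set_option autoImplicit false

open Finset

namespace Pool.Agent.Results.MP_78c6b1_al.LongIntervals

open Pool.Agent.W224.AB

theorem class_two {X Y Z : Type} [AddCommGroup X] [AddCommGroup Y] [AddCommGroup Z]
    (B : X →+ Y →+ Z) (g h k : HG B) : Commute (g * h * g⁻¹ * h⁻¹) k := by
  rw [HG.commute_iff]
  have h1 : (g * h * g⁻¹ * h⁻¹).x = 0 := by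
    show g.x + h.x + -g.x + -h.x = 0
    abel
  have h2 : (g * h * g⁻¹ * h⁻¹).y = 0 := by
    show g.y + h.y + -g.y + -h.y = 0
    abel
  rw [h1, h2, map_zero, map_zero, AddMonoidHom.zero_apply]

theorem bound (p : ℕ) (hp : p.Prime) (D A : ℕ) (X : ℕ)
    (h : (p : ℤ) ^ 2 * ((p : ℤ) ^ (2 * p) + ((p : ℤ) - 1) * (p : ℤ) ^ 2) ^ D +
        ((p : ℤ) - 1) * (p : ℤ) ^ D =
      (X : ℤ) * ((p : ℤ) ^ 2 - 1) +
        (p : ℤ) ^ (((2 * p + 1) * D + 3) % 2) + (A : ℤ) * ((p : ℤ) ^ 2 - 1) * ((p : ℤ) - 1)) :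
    A < p ^ ((2 * p + 1) * D + 2) := by
  have hp2 : (2 : ℤ) ≤ p := by exact_mod_cast hp.two_le
  have h1 : (p : ℤ) ^ (2 * p) + ((p : ℤ) - 1) * (p : ℤ) ^ 2 ≤ (p : ℤ) ^ (2 * p + 1) := by
    have h2 : (p : ℤ) ^ 2 ≤ (p : ℤ) ^ (2 * p) :=
      pow_le_pow_right₀ (by linarith) (by have := hp.two_le; omega)
    have e1 : (p : ℤ) ^ (2 * p + 1) = (p : ℤ) ^ (2 * p) * p := pow_succ _ _
    rw [e1]
    nlinarith [mul_nonneg (sub_nonneg.2 h2) (by linarith : (0 : ℤ) ≤ (p : ℤ) - 1)]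
  have h3 : ((p : ℤ) ^ (2 * p) + ((p : ℤ) - 1) * (p : ℤ) ^ 2) ^ D ≤
      (p : ℤ) ^ ((2 * p + 1) * D) := by
    have e2 : (p : ℤ) ^ ((2 * p + 1) * D) = ((p : ℤ) ^ (2 * p + 1)) ^ D := pow_mul _ _ _
    rw [e2]
    have h0 : (0 : ℤ) ≤ ((p : ℤ) - 1) * (p : ℤ) ^ 2 := mul_nonneg (by linarith) (by positivity)
    have h00 : (0 : ℤ) ≤ (p : ℤ) ^ (2 * p) := by positivity
    exact pow_le_pow_left₀ (by linarith) h1 D
  have h4 : (p : ℤ) ^ D ≤ (p : ℤ) ^ ((2 * p + 1) * D) :=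
    pow_le_pow_right₀ (by linarith) (by nlinarith)
  have h5 : (1 : ℤ) ≤ (p : ℤ) ^ ((2 * p + 1) * D) := one_le_pow₀ (by linarith)
  have h6 : (0 : ℤ) ≤ (X : ℤ) * ((p : ℤ) ^ 2 - 1) :=
    mul_nonneg (by positivity) (by nlinarith)
  have h7 : (0 : ℤ) < (p : ℤ) ^ (((2 * p + 1) * D + 3) % 2) := by positivity
  have h8 : (A : ℤ) * 3 ≤ (A : ℤ) * ((p : ℤ) ^ 2 - 1) * ((p : ℤ) - 1) := by
    have h9 : (3 : ℤ) ≤ ((p : ℤ) ^ 2 - 1) * ((p : ℤ) - 1) := by nlinarith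
    rw [mul_assoc]
    exact mul_le_mul_of_nonneg_left h9 (by positivity)
  have h10 : (A : ℤ) * 3 < (p : ℤ) ^ 2 * (p : ℤ) ^ ((2 * p + 1) * D) +
      ((p : ℤ) - 1) * (p : ℤ) ^ ((2 * p + 1) * D) := by
    have h11 := mul_le_mul_of_nonneg_left h3 (by positivity : (0 : ℤ) ≤ (p : ℤ) ^ 2)
    have h12 := mul_le_mul_of_nonneg_left h4 (by linarith : (0 : ℤ) ≤ (p : ℤ) - 1)
    linarith
  have h13 : (A : ℤ) < (p : ℤ) ^ ((2 * p + 1) * D + 2) := by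
    rw [pow_add]
    nlinarith
  exact_mod_cast h13

/-- For every prime `p` and every `D` there is a block of `p ^ D` consecutive integers
`A, A + 1, ..., A + p ^ D - 1` all of which are abundances of finite `p`-groups; the groups can be
taken of one and the same order `p ^ ((2p+1)D+3)` and of nilpotency class at most two, and `A` is
given by an explicit formula; in particular it is less than `p ^ ((2p+1)D+2)`. -/
theorem result (p : ℕ) (hp : p.Prime) (D : ℕ) : ∃ A : ℕ,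
    ((p : ℤ) ^ 2 * ((p : ℤ) ^ (2 * p) + ((p : ℤ) - 1) * (p : ℤ) ^ 2) ^ D +
        ((p : ℤ) - 1) * (p : ℤ) ^ D =
      ((((2 * p + 1) * D + 3) / 2 : ℕ) : ℤ) * ((p : ℤ) ^ 2 - 1) +
        (p : ℤ) ^ (((2 * p + 1) * D + 3) % 2) + (A : ℤ) * ((p : ℤ) ^ 2 - 1) * ((p : ℤ) - 1)) ∧
    A < p ^ ((2 * p + 1) * D + 2) ∧
    ∀ a : ℕ, A ≤ a → a < A + p ^ D →
      ∃ (G : Type) (_ : Group G) (_ : Finite G) (m : ℕ),
        m = (2 * p + 1) * D + 3 ∧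
        Nat.card G = p ^ m ∧
        (∀ g h k : G, Commute (g * h * g⁻¹ * h⁻¹) k) ∧
        (Nat.card (ConjClasses G) : ℤ) =
          ((m / 2 : ℕ) : ℤ) * ((p : ℤ) ^ 2 - 1) + (p : ℤ) ^ (m % 2)
            + (a : ℤ) * ((p : ℤ) ^ 2 - 1) * ((p : ℤ) - 1) := by
  haveI : Fact p.Prime := ⟨hp⟩
  have hp1 : 1 ≤ p := hp.one_lt.le
  have hp2 : 1 ≤ p ^ 2 := Nat.one_le_pow _ _ hp1
  obtain ⟨A, hA⟩ := exists_A (p := p) D
  have hf : (p : ℤ) ^ 2 * ((p : ℤ) ^ (2 * p) + ((p : ℤ) - 1) * (p : ℤ) ^ 2) ^ D +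
        ((p : ℤ) - 1) * (p : ℤ) ^ D =
      ((((2 * p + 1) * D + 3) / 2 : ℕ) : ℤ) * ((p : ℤ) ^ 2 - 1) +
        (p : ℤ) ^ (((2 * p + 1) * D + 3) % 2) + (A : ℤ) * ((p : ℤ) ^ 2 - 1) * ((p : ℤ) - 1) := by
    rw [← hA, base_sum]
    push_cast [Nat.cast_sub hp1]
    ring
  refine ⟨A, hf, bound p hp D A _ hf, ?_⟩
  · intro a ha1 ha2
    obtain ⟨M, rfl⟩ := Nat.exists_eq_add_of_le ha1
    obtain ⟨B, hB⟩ := total (p := p) D M (by omega)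
    haveI : Finite (HG B) := Finite.of_equiv _ (HG.equiv B).symm
    refine ⟨HG B, inferInstance, inferInstance, (2 * p + 1) * D + 3, rfl, order D B,
      class_two B, ?_⟩
    rw [hB]
    have h1 : (((∑ u : Fin D → ZMod p, (p * p ^ cc u) ^ 2) +
        (p - 1) * (p ^ D + (p ^ 2 - 1) * M) : ℕ) : ℤ) =
        (((∑ u : Fin D → ZMod p, (p * p ^ cc u) ^ 2 : ℕ) : ℤ) + ((p : ℤ) - 1) * (p : ℤ) ^ D) +
          (M : ℤ) * ((p : ℤ) ^ 2 - 1) * ((p : ℤ) - 1) := by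
      rw [Nat.cast_add, Nat.cast_mul, Nat.cast_add, Nat.cast_mul, Nat.cast_sub hp1,
        Nat.cast_sub hp2]
      push_cast
      ring
    rw [h1, hA]
    push_cast
    ring

end Pool.Agent.Results.MP_78c6b1_al.LongIntervals
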